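import Pool.Agent.H202Z.GR.Main

open Filter Pool.Agent.H135R2.VS Pool.Agent.H202Z.GR

namespace Pool.Agent.Results.MP_ea0129_co.CoreNotGloballyRigid

/-- For every `d ≥ 2`, `c > 0` and `ε > 0`, the probability that the `(d+1)`-core of
`G(n, c/n)` induces a globally `d`-rigid graph and has at least `ε n` vertices stays below
`1 - δ` for all large `n`. -/
theorem result (d : ℕ) (hd : 2 ≤ d) (c : ℝ) (hc : 0 < c) (ε : ℝ) (hε : 0 < ε) :
    ∃ δ : ℝ, 0 < δ ∧ ∀ᶠ n : ℕ in atTop,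
      Pr n (c / n) (fun G => GloballyRigid d (G.induce (core (d + 1) G : Set (Fin n))) ∧
        ε * n ≤ ((core (d + 1) G).card : ℝ)) ≤ 1 - δ :=
  main d hd c hc ε hε

end Pool.Agent.Results.MP_ea0129_co.CoreNotGloballyRigid
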